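import Mathlib

namespace Pool.Agent.Results.MP_c10dfe_an.NotTrans

open Polynomial

/-- `A ≥ B`: some non-constant polynomial `π` has `π ∘ A = B ∘ π`. -/
def SemiConj (A B : ℂ[X]) : Prop :=
  ∃ π : ℂ[X], 0 < π.natDegree ∧ π.comp A = B.comp π

theorem key (Φ B π h : ℂ[X]) (z : ℂ) (hπ : 0 < π.natDegree) (hc : π.comp Φ = B.comp π)
    (hz : Φ - C z = (X - C z) * h) (k : ℂ[X])
    (hk : B - C (π.eval z) = (X - C (π.eval z)) * k) :
    ∃ e : ℕ, 0 < e ∧ (h.eval z) ^ e = k.eval (π.eval z) := by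
  have hne : π - C (π.eval z) ≠ 0 := by
    intro h0
    have h1 : π = C (π.eval z) := sub_eq_zero.mp h0
    rw [h1, natDegree_C] at hπ
    exact lt_irrefl _ hπ
  obtain ⟨g, hg, hnd⟩ := exists_eq_pow_rootMultiplicity_mul_and_not_dvd (π - C (π.eval z)) hne z
  have hroot : (π - C (π.eval z)).IsRoot z := by simp [IsRoot]
  have he : 0 < rootMultiplicity z (π - C (π.eval z)) := (rootMultiplicity_pos hne).mpr hroot
  generalize rootMultiplicity z (π - C (π.eval z)) = e at hg he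
  refine ⟨e, he, ?_⟩
  have hg0 : g.eval z ≠ 0 := fun h0 => hnd (dvd_iff_isRoot.mpr h0)
  have hΦz : Φ.eval z = z := by
    have := congrArg (eval z) hz
    simp at this
    exact sub_eq_zero.mp this
  have e1 : π.comp Φ - C (π.eval z) = (X - C z) ^ e * (h ^ e * g.comp Φ) := by
    have := congrArg (fun p => p.comp Φ) hg
    simp only [sub_comp, C_comp, mul_comp, pow_comp, X_comp] at this
    rw [this, hz, mul_pow]; ring
  have e2 : B.comp π - C (π.eval z) = (X - C z) ^ e * (g * k.comp π) := by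
    have := congrArg (fun p => p.comp π) hk
    simp only [sub_comp, C_comp, mul_comp, X_comp] at this
    rw [this, hg]; ring
  have e3 : h ^ e * g.comp Φ = g * k.comp π := by
    have hx : ((X - C z : ℂ[X])) ^ e ≠ 0 := pow_ne_zero _ (X_sub_C_ne_zero z)
    apply mul_left_cancel₀ hx
    rw [← e1, ← e2, hc]
  have e4 := congrArg (eval z) e3
  simp only [eval_mul, eval_pow, eval_comp, hΦz] at e4
  apply mul_left_cancel₀ hg0
  rw [← e4]; ring

theorem noPair (l : ℂ) (a b : ℕ) (ha : 0 < a) (hb : 0 < b)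
    (h1 : l ^ a = 2 ∨ l ^ a = -1) (h2 : l ^ b = -2 ∨ l ^ b = 7) : False := by
  have hab : (l ^ a) ^ b = (l ^ b) ^ a := by rw [← pow_mul, ← pow_mul, mul_comm]
  have hn := congrArg (fun x => ‖x‖) hab
  simp only [norm_pow] at hn
  rw [← norm_pow, ← norm_pow l] at hn
  rcases h1 with h1 | h1 <;> rcases h2 with h2 | h2
  · rw [h1, h2] at hn
    simp at hn
    have : b = a := by
      have h3 : ((2 ^ b : ℕ) : ℝ) = ((2 ^ a : ℕ) : ℝ) := by push_cast; first | exact hn | rw [hn]
      have h4 : (2 ^ b : ℕ) = 2 ^ a := by exact_mod_cast h3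
      exact Nat.pow_right_injective (le_refl 2) h4
    subst this
    rw [h1] at h2
    norm_num at h2
  · rw [h1, h2] at hn
    simp at hn
    have h4 : (2 ^ b : ℕ) = 7 ^ a := by exact_mod_cast hn
    have h5 : (2 : ℕ) ∣ 7 ^ a := h4 ▸ dvd_pow_self 2 hb.ne'
    have := Nat.Prime.dvd_of_dvd_pow Nat.prime_two h5
    omega
  · rw [h1, h2] at hn
    simp at hn
    have h4 : (1 : ℕ) = 2 ^ a := by exact_mod_cast hn
    have := Nat.one_lt_two_pow ha.ne'
    omega
  · rw [h1, h2] at hn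
    simp at hn
    have h4 : (1 : ℕ) = 7 ^ a := by exact_mod_cast hn
    have := Nat.one_lt_pow ha.ne' (by norm_num : 1 < 7)
    omega

theorem result :
    ∃ P Q R φ ψ : ℂ[X], P.natDegree = 3 ∧ Q.natDegree = 3 ∧ R.natDegree = 3 ∧
      φ.natDegree = 3 ∧ ψ.natDegree = 3 ∧
      SemiConj φ P ∧ SemiConj φ R ∧ SemiConj ψ R ∧ SemiConj ψ Q ∧
      ¬ ∃ Φ : ℂ[X], SemiConj Φ P ∧ SemiConj Φ Q := by
  have dP : (X ^ 3 + 2 * X : ℂ[X]).natDegree = 3 := by compute_degree!
  have dQ : (-(X ^ 3 + 2 * X) : ℂ[X]).natDegree = 3 := by rw [natDegree_neg, dP]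
  have dR : (X ^ 3 + 4 * X ^ 2 + 4 * X : ℂ[X]).natDegree = 3 := by compute_degree!
  refine ⟨X ^ 3 + 2 * X, -(X ^ 3 + 2 * X), X ^ 3 + 4 * X ^ 2 + 4 * X, X ^ 3 + 2 * X,
    -(X ^ 3 + 2 * X), dP, dQ, dR, dP, dQ, ⟨X, by simp, by simp⟩, ⟨X ^ 2, by simp, ?_⟩,
    ⟨X ^ 2, by simp, ?_⟩, ⟨X, by simp, by simp⟩, ?_⟩
  · simp; ring
  · simp; ring
  rintro ⟨Φ, ⟨p, hp, hpc⟩, ⟨q, hq, hqc⟩⟩
  have dΦ : Φ.natDegree = 3 := by
    have := congrArg natDegree hpc
    rw [natDegree_comp, natDegree_comp, dP, mul_comm 3] at this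
    exact Nat.eq_of_mul_eq_mul_left hp this
  have d1 : (Φ - X).natDegree = 3 := by
    rw [natDegree_sub_eq_left_of_natDegree_lt (by rw [dΦ]; simp), dΦ]
  obtain ⟨z, hz⟩ := IsAlgClosed.exists_root (Φ - X)
    (by intro h0; have := natDegree_eq_zero_iff_degree_le_zero.mpr h0.le; omega)
  have hΦz : Φ.eval z = z := by
    simp [IsRoot] at hz
    exact sub_eq_zero.mp hz
  obtain ⟨h, hh⟩ : (X - C z) ∣ (Φ - C z) := dvd_iff_isRoot.mpr (by simp [IsRoot, hΦz])
  have fp : (p.eval z) ^ 3 + 2 * p.eval z = p.eval z := by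
    have := congrArg (eval z) hpc
    simp [eval_comp, hΦz] at this
    exact this.symm
  have fq : -((q.eval z) ^ 3 + 2 * q.eval z) = q.eval z := by
    have := congrArg (eval z) hqc
    simp [eval_comp, hΦz] at this
    linear_combination -this
  obtain ⟨a, ha, h1⟩ := key Φ _ p h z hp hpc hh
    (X ^ 2 + C (p.eval z) * X + C (p.eval z) ^ 2 + 2) (by
      have := congrArg C fp
      simp only [map_add, map_pow, map_mul, map_ofNat] at this
      linear_combination this)
  obtain ⟨b, hb, h2⟩ := key Φ _ q h z hq hqc hh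
    (-(X ^ 2 + C (q.eval z) * X + C (q.eval z) ^ 2 + 2)) (by
      have := congrArg C fq
      simp only [map_add, map_pow, map_mul, map_ofNat, map_neg] at this
      linear_combination this)
  simp only [eval_add, eval_pow, eval_mul, eval_X, eval_C, eval_neg, eval_ofNat] at h1 h2
  apply noPair (h.eval z) a b ha hb
  · have : p.eval z * ((p.eval z) ^ 2 + 1) = 0 := by linear_combination fp
    rcases mul_eq_zero.mp this with h0 | h0
    · left; rw [h1, h0]; ring
    · right; rw [h1]; linear_combination 3 * h0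
  · have : q.eval z * ((q.eval z) ^ 2 + 3) = 0 := by linear_combination -fq
    rcases mul_eq_zero.mp this with h0 | h0
    · left; rw [h2, h0]; ring
    · right; rw [h2]; linear_combination -3 * h0

end Pool.Agent.Results.MP_c10dfe_an.NotTrans
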